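import Mathlib

/-!
# Every completely metrizable space is strongly Telgársky pseudocomplete

For every `n` a locally finite open cover of mesh less than `1 / (n + 1)` has an irreducible
subcover; distinct members of an irreducible cover are not comparable under inclusion. The union of
these covers is a base. A nested sequence of members of this base either is eventually constant or
contains members of arbitrarily small diameter.
-/

set_option autoImplicit false

open Set Topology TopologicalSpace Filter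

universe u

namespace Pool.Agent.Results.MP_e752eb_gt.CompletelyMetrizable

/-- A sequence of sets is nested if the closure of each set is contained in the interior of the
preceding one. -/
def Nested {X : Type u} [TopologicalSpace X] (B : ℕ → Set X) : Prop :=
  ∀ n, closure (B (n + 1)) ⊆ interior (B n)

/-- `X` has a base of nonempty open sets such that every nested sequence of members of the base has
nonempty intersection. -/
def StronglyTelgarskyPseudocomplete (X : Type u) [TopologicalSpace X] : Prop :=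
  ∃ ℬ : Set (Set X), IsTopologicalBasis ℬ ∧ (∀ B ∈ ℬ, B.Nonempty) ∧
    ∀ B : ℕ → Set X, (∀ n, B n ∈ ℬ) → Nested B → (⋂ n, B n).Nonempty

/-- A locally finite cover has an irreducible subcover. -/
theorem exists_irreducible {X ι : Type u} [TopologicalSpace X] (v : ι → Set X)
    (hlf : LocallyFinite v) (hcov : ⋃ i, v i = univ) :
    ∃ J : Set ι, (⋃ i ∈ J, v i) = univ ∧ ∀ i ∈ J, (⋃ j ∈ J \ {i}, v j) ≠ univ := by
  classical
  obtain ⟨J, hJ⟩ := zorn_superset {J : Set ι | (⋃ i ∈ J, v i) = univ} (by
    intro c hc hchain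
    rcases c.eq_empty_or_nonempty with rfl | hne
    · exact ⟨univ, by simpa using hcov, by simp⟩
    refine ⟨⋂₀ c, ?_, fun s hs => sInter_subset_of_mem hs⟩
    rw [mem_ofPred_eq, eq_univ_iff_forall]
    intro x
    by_contra hx
    have hfin : {i | x ∈ v i}.Finite := hlf.point_finite x
    -- for each `i` with `x ∈ v i` there is a member of the chain missing `i`
    have hmiss : ∀ i ∈ {i | x ∈ v i}, ∃ s ∈ c, i ∉ s := by
      intro i hi
      by_contra hcon
      push Not at hcon
      exact hx (mem_iUnion₂.2 ⟨i, mem_sInter.2 hcon, hi⟩)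
    have key : ∀ F : Set ι, F.Finite → (∀ i ∈ F, ∃ s ∈ c, i ∉ s) → ∃ s ∈ c, ∀ i ∈ F, i ∉ s := by
      intro F hF
      refine hF.induction_on _ ?_ ?_
      · intro _
        obtain ⟨s, hs⟩ := hne
        exact ⟨s, hs, by simp⟩
      · intro a F' _ _ ih h
        obtain ⟨s, hs, h1⟩ := ih fun i hi => h i (mem_insert_of_mem _ hi)
        obtain ⟨t, ht, h2⟩ := h a (mem_insert _ _)
        rcases hchain.total hs ht with hst | hts
        · refine ⟨s, hs, ?_⟩
          rintro i (rfl | hi)
          · exact fun h => h2 (hst h)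
          · exact h1 i hi
        · refine ⟨t, ht, ?_⟩
          rintro i (rfl | hi)
          · exact h2
          · exact fun h => h1 i hi (hts h)
    obtain ⟨s, hs, h⟩ := key _ hfin hmiss
    have hs' : (⋃ i ∈ s, v i) = univ := hc hs
    have hxs : x ∈ ⋃ i ∈ s, v i := hs' ▸ mem_univ x
    obtain ⟨i, hi, hxi⟩ := mem_iUnion₂.1 hxs
    exact h i hxi hi)
  refine ⟨J, hJ.prop, fun i hi hcon => ?_⟩
  have h := hJ.le_of_le (y := J \ {i}) hcon sdiff_subset
  exact (h hi).2 rfl

/-- For every `ε > 0` a metric space has an open cover by nonempty sets of diameter at most `2 ε`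
in which distinct members are not comparable. -/
theorem exists_antichain_cover (X : Type u) [MetricSpace X] (ε : ℝ) (hε : 0 < ε) :
    ∃ 𝒰 : Set (Set X), (∀ U ∈ 𝒰, IsOpen U ∧ U.Nonempty ∧ ∃ x, U ⊆ Metric.ball x ε) ∧
      (∀ x, ∃ U ∈ 𝒰, x ∈ U) ∧ ∀ U ∈ 𝒰, ∀ V ∈ 𝒰, U ⊆ V → U = V := by
  obtain ⟨v, hvo, hvc, hvl, hvs⟩ := precise_refinement (fun x : X => Metric.ball x ε)
    (fun x => Metric.isOpen_ball) (by
      rw [eq_univ_iff_forall]
      exact fun x => mem_iUnion.2 ⟨x, Metric.mem_ball_self hε⟩)
  obtain ⟨J, hJ, hmin⟩ := exists_irreducible v hvl hvc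
  refine ⟨v '' J, ?_, ?_, ?_⟩
  · rintro _ ⟨i, hi, rfl⟩
    refine ⟨hvo i, ?_, i, hvs i⟩
    by_contra hcon
    rw [not_nonempty_iff_eq_empty] at hcon
    apply hmin i hi
    rw [eq_univ_iff_forall]
    intro x
    have hx : x ∈ ⋃ j ∈ J, v j := hJ ▸ mem_univ x
    obtain ⟨j, hj, hxj⟩ := mem_iUnion₂.1 hx
    refine mem_iUnion₂.2 ⟨j, ⟨hj, ?_⟩, hxj⟩
    rintro rfl
    rw [hcon] at hxj
    exact hxj
  · intro x
    have hx : x ∈ ⋃ j ∈ J, v j := hJ ▸ mem_univ x
    obtain ⟨j, hj, hxj⟩ := mem_iUnion₂.1 hx
    exact ⟨v j, ⟨j, hj, rfl⟩, hxj⟩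
  · rintro _ ⟨i, hi, rfl⟩ _ ⟨k, hk, rfl⟩ hsub
    by_contra hne
    have hik : k ≠ i := by
      rintro rfl
      exact hne rfl
    apply hmin i hi
    rw [eq_univ_iff_forall]
    intro x
    have hx : x ∈ ⋃ j ∈ J, v j := hJ ▸ mem_univ x
    obtain ⟨j, hj, hxj⟩ := mem_iUnion₂.1 hx
    by_cases hji : j = i
    · subst hji
      exact mem_iUnion₂.2 ⟨k, ⟨hk, hik⟩, hsub hxj⟩
    · exact mem_iUnion₂.2 ⟨j, ⟨hj, hji⟩, hxj⟩

/-- A complete metric space is strongly Telgársky pseudocomplete. -/
theorem complete_case (X : Type u) [MetricSpace X] [CompleteSpace X] :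
    StronglyTelgarskyPseudocomplete X := by
  choose 𝒰 h1 h2 h3 using fun n : ℕ =>
    exists_antichain_cover X (1 / (n + 1 : ℝ)) Nat.one_div_pos_of_nat
  refine ⟨⋃ n, 𝒰 n, ?_, ?_, ?_⟩
  · refine isTopologicalBasis_of_isOpen_of_nhds ?_ ?_
    · intro U hU
      obtain ⟨n, hn⟩ := mem_iUnion.1 hU
      exact (h1 n U hn).1
    · intro a O ha hO
      obtain ⟨ε, hε, hεO⟩ := Metric.isOpen_iff.1 hO a ha
      obtain ⟨n, hn⟩ := exists_nat_one_div_lt (half_pos hε)
      obtain ⟨U, hU, haU⟩ := h2 n a
      refine ⟨U, mem_iUnion.2 ⟨n, hU⟩, haU, fun y hy => hεO ?_⟩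
      obtain ⟨-, -, c, hc⟩ := h1 n U hU
      have ha' := Metric.mem_ball.1 (hc haU)
      have hy' := Metric.mem_ball.1 (hc hy)
      rw [Metric.mem_ball]
      calc dist y a ≤ dist y c + dist a c := dist_triangle_right _ _ _
        _ < 1 / (n + 1 : ℝ) + 1 / (n + 1 : ℝ) := add_lt_add hy' ha'
        _ < ε := by linarith
  · intro U hU
    obtain ⟨n, hn⟩ := mem_iUnion.1 hU
    exact (h1 n U hn).2.1
  · intro B hB hnest
    have hopen : ∀ n, IsOpen (B n) := fun n => by
      obtain ⟨k, hk⟩ := mem_iUnion.1 (hB n)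
      exact (h1 k _ hk).1
    have hne : ∀ n, (B n).Nonempty := fun n => by
      obtain ⟨k, hk⟩ := mem_iUnion.1 (hB n)
      exact (h1 k _ hk).2.1
    have hstep : ∀ n, closure (B (n + 1)) ⊆ B n := fun n =>
      (hnest n).trans interior_subset
    have hanti : Antitone B := antitone_nat_of_succ_le fun n => subset_closure.trans (hstep n)
    by_cases hfin : (range B).Finite
    · -- eventually constant
      have : ∃ N, ∀ n, B N ⊆ B n := by
        obtain ⟨S, hS⟩ := hfin.exists_minimal (range_nonempty B)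
        obtain ⟨N, hN⟩ := hS.prop
        refine ⟨N, fun n => ?_⟩
        rcases le_total n N with h | h
        · exact hanti h
        · have h4 : B n ≤ S := by
            rw [← hN]
            exact hanti h
          have h5 := hS.le_of_le ⟨n, rfl⟩ h4
          rw [hN]
          exact h5
      obtain ⟨N, hN⟩ := this
      obtain ⟨x, hx⟩ := hne N
      exact ⟨x, mem_iInter.2 fun n => hN n hx⟩
    · -- small members
      have hsmall : ∀ K : ℕ, ∃ n k, K ≤ k ∧ B n ∈ 𝒰 k := by
        intro K
        by_contra hcon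
        push Not at hcon
        apply hfin
        have hsub : range B ⊆ ⋃ k ∈ Finset.range K, (range B ∩ 𝒰 k) := by
          rintro _ ⟨n, rfl⟩
          obtain ⟨k, hk⟩ := mem_iUnion.1 (hB n)
          refine mem_iUnion₂.2 ⟨k, ?_, ⟨n, rfl⟩, hk⟩
          rw [Finset.mem_range]
          by_contra hkK
          exact hcon n k (not_lt.1 hkK) hk
        refine Set.Finite.subset ?_ hsub
        refine Set.Finite.biUnion (Finset.finite_toSet _) fun k _ => ?_
        refine Set.Subsingleton.finite ?_
        rintro _ ⟨⟨n, rfl⟩, hn⟩ _ ⟨⟨m, rfl⟩, hm⟩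
        rcases le_total n m with h | h
        · exact (h3 k _ hm _ hn (hanti h)).symm
        · exact h3 k _ hn _ hm (hanti h)
      choose x hx using hne
      have hcauchy : CauchySeq x := by
        rw [Metric.cauchySeq_iff']
        intro ε hε
        obtain ⟨K, hK⟩ := exists_nat_one_div_lt (half_pos hε)
        obtain ⟨N, k, hKk, hN⟩ := hsmall K
        refine ⟨N, fun n hn => ?_⟩
        obtain ⟨-, -, c, hc⟩ := h1 k _ hN
        have h4 := Metric.mem_ball.1 (hc (hanti hn (hx n)))
        have h5 := Metric.mem_ball.1 (hc (hx N))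
        have h6 : 1 / (k + 1 : ℝ) ≤ 1 / (K + 1 : ℝ) := by
          apply one_div_le_one_div_of_le (by positivity)
          exact_mod_cast Nat.succ_le_succ hKk
        calc dist (x n) (x N) ≤ dist (x n) c + dist (x N) c := dist_triangle_right _ _ _
          _ < 1 / (k + 1 : ℝ) + 1 / (k + 1 : ℝ) := add_lt_add h4 h5
          _ < ε := by linarith
      obtain ⟨y, hy⟩ := cauchySeq_tendsto_of_complete hcauchy
      refine ⟨y, mem_iInter.2 fun n => hstep n ?_⟩
      refine mem_closure_of_tendsto hy ?_
      filter_upwards [eventually_ge_atTop (n + 1)] with m hm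
      exact hanti hm (hx m)

/-- Every completely metrizable space is strongly Telgársky pseudocomplete. -/
theorem result (X : Type u) [TopologicalSpace X] [IsCompletelyMetrizableSpace X] :
    StronglyTelgarskyPseudocomplete X := by
  let _ := upgradeIsCompletelyMetrizable X
  exact complete_case X

end Pool.Agent.Results.MP_e752eb_gt.CompletelyMetrizable
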